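import Pool.Agent.Q329.CD.Sound

/-!
# From satisfying assignments to comparability orderings
-/

namespace Pool.Agent.Q329.CD

open Pool.Agent.NPC Pool.Agent.Q329.PSy

/-- Whether the literal at an occurrence is true. -/
def LT (φ : F3) (τ : ℕ → Bool) (l : ℕ) : Bool := τ (lt φ l).2 == (lt φ l).1

/-- The levels of the four vertices of the cycle of a clause. -/
def px (a b c : Bool) (k : ℕ) : ℕ :=
  if a then (if k = 9 then 6 else if k = 10 then (if b then 5 else 3) else
    if k = 11 then 4 else (if c then 3 else 5))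
  else if b then (if k = 9 then 4 else if k = 10 then 6 else
    if k = 11 then (if c then 5 else 2) else 3)
  else (if k = 9 then 3 else if k = 10 then 4 else if k = 11 then 5 else 2)

/-- The levels. -/
def lev (φ : F3) (τ : ℕ → Bool) (u : ℕ × ℕ) : ℕ :=
  if u.1 = 0 then (if τ u.2 then 8 else 0) else if u.1 = 1 then (if τ u.2 then 0 else 8) else
  if u.1 = 2 then 8 else if u.1 < 9 then 4 else
  if u.1 < 13 then px (LT φ τ (3 * u.2)) (LT φ τ (3 * u.2 + 1)) (LT φ τ (3 * u.2 + 2)) u.1 else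
  if u.1 = 13 then (if LT φ τ (3 * u.2) then 1 else 7) else
  if u.1 = 14 then (if LT φ τ (3 * u.2 + 1) then 1 else 7) else
  if u.1 = 15 then (if LT φ τ (3 * u.2 + 2) then 1 else 7) else 7

theorem px_spec (a b c : Bool) (h : a = true ∨ b = true ∨ c = true) :
    (px a b c 10 < px a b c 9 ↔ a = true) ∧ (px a b c 9 < px a b c 10 ↔ a = false) ∧
    (px a b c 11 < px a b c 10 ↔ b = true) ∧ (px a b c 10 < px a b c 11 ↔ b = false) ∧
    (px a b c 12 < px a b c 11 ↔ c = true) ∧ (px a b c 11 < px a b c 12 ↔ c = false) ∧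
    px a b c 12 < px a b c 9 := by
  revert h
  cases a <;> cases b <;> cases c <;> simp [px]

theorem px_bd (a b c : Bool) (k : ℕ) : 2 ≤ px a b c k ∧ px a b c k ≤ 6 := by
  unfold px
  split_ifs <;> omega

variable {φ : F3} {τ : ℕ → Bool}

theorem lev_hub (l : ℕ) : lev φ τ (hub (lt φ l)) = if LT φ τ l then 0 else 8 := by
  unfold lev hub LT
  cases (lt φ l).1 <;> cases τ (lt φ l).2 <;> simp

theorem lev_hub3 {H : ℕ × ℕ} (h : H.1 < 3) : lev φ τ H = 0 ∨ lev φ τ H = 8 := by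
  unfold lev
  split_ifs <;> first | omega | simp

theorem lev_mid {a : ℕ × ℕ} (h : 3 ≤ a.1) : 0 < lev φ τ a ∧ lev φ τ a < 8 := by
  have := px_bd (LT φ τ (3 * a.2)) (LT φ τ (3 * a.2 + 1)) (LT φ τ (3 * a.2 + 2)) a.1
  unfold lev
  split_ifs <;> omega

/-- Hubs are extreme among their neighbours. -/
theorem hub_ext {H a : ℕ × ℕ} (hH : H.1 < 3) (h : Arc φ a H ∨ Arc φ H a) :
    (lev φ τ H = 0 ∧ 0 < lev φ τ a) ∨ (lev φ τ H = 8 ∧ lev φ τ a < 8) := by
  by_cases ha : 3 ≤ a.1
  · have := lev_mid (φ := φ) (τ := τ) ha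
    rcases lev_hub3 (φ := φ) (τ := τ) hH with h | h
    · left; omega
    · right; omega
  · have h1 : (a.1 = 1 ∧ H.1 = 0 ∧ a.2 = H.2) ∨ (a.1 = 0 ∧ H.1 = 1 ∧ a.2 = H.2) := by
      have e1 := hub_cases (lt φ (3 * a.2))
      have e2 := hub_cases (lt φ (3 * H.2))
      rcases h with h | h <;> unfold Arc at h <;> rw [cl_iff] at h <;>
        rcases h with h | h | h | h | h | h <;> omega
    unfold lev
    rcases h1 with ⟨h1, h2, h3⟩ | ⟨h1, h2, h3⟩
    · rw [h1, h2, h3]
      cases τ H.2 <;> simp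
    · rw [h1, h2, h3]
      cases τ H.2 <;> simp

theorem in9 {a : ℕ × ℕ} {j : ℕ} (h : Arc φ a (9, j)) : j < φ.length ∧ a = (13, j) := by
  have e1 := hub_cases (lt φ (3 * a.2))
  have e2 := hub_cases (lt φ (3 * a.2 + 2))
  unfold Arc at h
  rw [cl_iff] at h
  rcases h with h | h | ⟨_, _, h⟩ | ⟨_, _, h⟩ | h | h
  · simp only at h; omega
  · simp only at h
    exact ⟨by omega, Prod.ext (by simp only; omega) h.1⟩
  · have := congrArg Prod.fst h; simp only at this; omega
  · have := congrArg Prod.fst h; simp only at this; omega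
  · simp only at h; omega
  · simp only at h; omega

theorem out9 {c : ℕ × ℕ} {j : ℕ} (h : Arc φ (9, j) c) :
    c = (10, j) ∨ c = (12, j) ∨ c = (14, j) ∨ c = hub (lt φ (3 * j)) := by
  have e1 := hub_cases (lt φ (3 * c.2 + 1))
  unfold Arc at h
  rw [cl_iff] at h
  rcases h with h | ⟨h1, _, h⟩ | ⟨_, _, h⟩ | h | ⟨_, _, h⟩ | ⟨_, _, h⟩
  · simp only at h; omega
  · simp only at h h1
    have h2 : c.1 = 10 ∨ c.1 = 12 ∨ c.1 = 14 := by omega
    rcases h2 with h2 | h2 | h2
    · exact Or.inl (Prod.ext h2 h1.symm)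
    · exact Or.inr (Or.inl (Prod.ext h2 h1.symm))
    · exact Or.inr (Or.inr (Or.inl (Prod.ext h2 h1.symm)))
  · exact Or.inr (Or.inr (Or.inr h))
  · simp only at h; omega
  · have := congrArg Prod.fst h; simp only at this; omega
  · have := congrArg Prod.fst h; simp only at this; omega

theorem in11 {a : ℕ × ℕ} {j : ℕ} (h : Arc φ a (11, j)) : j < φ.length ∧ a = (15, j) := by
  have e1 := hub_cases (lt φ (3 * a.2))
  have e2 := hub_cases (lt φ (3 * a.2 + 2))
  unfold Arc at h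
  rw [cl_iff] at h
  rcases h with h | h | ⟨_, _, h⟩ | ⟨_, _, h⟩ | h | h
  · simp only at h; omega
  · simp only at h
    exact ⟨by omega, Prod.ext (by simp only; omega) h.1⟩
  · have := congrArg Prod.fst h; simp only at this; omega
  · have := congrArg Prod.fst h; simp only at this; omega
  · simp only at h; omega
  · simp only at h; omega

theorem out11 {c : ℕ × ℕ} {j : ℕ} (h : Arc φ (11, j) c) :
    c = (10, j) ∨ c = (12, j) ∨ c = (16, j) ∨ c = hub (lt φ (3 * j + 2)) := by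
  have e1 := hub_cases (lt φ (3 * c.2 + 1))
  unfold Arc at h
  rw [cl_iff] at h
  rcases h with h | ⟨h1, _, h⟩ | h | ⟨_, _, h⟩ | ⟨_, _, h⟩ | ⟨_, _, h⟩
  · simp only at h; omega
  · simp only at h h1
    have h2 : c.1 = 10 ∨ c.1 = 12 ∨ c.1 = 16 := by omega
    rcases h2 with h2 | h2 | h2
    · exact Or.inl (Prod.ext h2 h1.symm)
    · exact Or.inr (Or.inl (Prod.ext h2 h1.symm))
    · exact Or.inr (Or.inr (Or.inl (Prod.ext h2 h1.symm)))
  · simp only at h; omega
  · exact Or.inr (Or.inr (Or.inr h))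
  · have := congrArg Prod.fst h; simp only at this; omega
  · have := congrArg Prod.fst h; simp only at this; omega

theorem in10 {a : ℕ × ℕ} {j : ℕ} (h : Arc φ a (10, j)) : j < φ.length ∧
    (a = (9, j) ∨ a = (11, j) ∨ a = (15, j) ∨ a = hub (lt φ (3 * j + 1))) := by
  have e1 := hub_cases (lt φ (3 * a.2))
  have e2 := hub_cases (lt φ (3 * a.2 + 2))
  unfold Arc at h
  rw [cl_iff] at h
  rcases h with h | ⟨h1, h3, h⟩ | ⟨_, _, h⟩ | ⟨_, _, h⟩ | ⟨_, h3, h⟩ | h
  · simp only at h; omega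
  · simp only at h h1
    refine ⟨by omega, ?_⟩
    have h2 : a.1 = 9 ∨ a.1 = 11 ∨ a.1 = 15 := by omega
    rcases h2 with h2 | h2 | h2
    · exact Or.inl (Prod.ext h2 h1)
    · exact Or.inr (Or.inl (Prod.ext h2 h1))
    · exact Or.inr (Or.inr (Or.inl (Prod.ext h2 h1)))
  · have := congrArg Prod.fst h; simp only at this; omega
  · have := congrArg Prod.fst h; simp only at this; omega
  · exact ⟨h3, Or.inr (Or.inr (Or.inr h))⟩
  · simp only at h; omega

theorem out10 {c : ℕ × ℕ} {j : ℕ} (h : Arc φ (10, j) c) : c = (14, j) := by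
  have e1 := hub_cases (lt φ (3 * c.2 + 1))
  unfold Arc at h
  rw [cl_iff] at h
  rcases h with h | ⟨h1, _, h⟩ | h | h | ⟨_, _, h⟩ | ⟨_, _, h⟩
  · simp only at h; omega
  · simp only at h h1
    exact Prod.ext (by simp only; omega) h1.symm
  · simp only at h; omega
  · simp only at h; omega
  · have := congrArg Prod.fst h; simp only at this; omega
  · have := congrArg Prod.fst h; simp only at this; omega

theorem in12 {a : ℕ × ℕ} {j : ℕ} (h : Arc φ a (12, j)) : j < φ.length ∧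
    (a = (9, j) ∨ a = (11, j) ∨ a = (13, j) ∨ a = (2, 0)) := by
  have e1 := hub_cases (lt φ (3 * a.2))
  have e2 := hub_cases (lt φ (3 * a.2 + 2))
  unfold Arc at h
  rw [cl_iff] at h
  rcases h with h | ⟨h1, h3, h⟩ | ⟨_, _, h⟩ | ⟨_, _, h⟩ | h | ⟨_, h3, h⟩
  · simp only at h; omega
  · simp only at h h1
    refine ⟨by omega, ?_⟩
    have h2 : a.1 = 9 ∨ a.1 = 11 ∨ a.1 = 13 := by omega
    rcases h2 with h2 | h2 | h2
    · exact Or.inl (Prod.ext h2 h1)
    · exact Or.inr (Or.inl (Prod.ext h2 h1))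
    · exact Or.inr (Or.inr (Or.inl (Prod.ext h2 h1)))
  · have := congrArg Prod.fst h; simp only at this; omega
  · have := congrArg Prod.fst h; simp only at this; omega
  · simp only at h; omega
  · exact ⟨h3, Or.inr (Or.inr (Or.inr h))⟩

theorem out12 {c : ℕ × ℕ} {j : ℕ} (h : Arc φ (12, j) c) : c = (16, j) := by
  have e1 := hub_cases (lt φ (3 * c.2 + 1))
  unfold Arc at h
  rw [cl_iff] at h
  rcases h with h | ⟨h1, _, h⟩ | h | h | ⟨_, _, h⟩ | ⟨_, _, h⟩
  · simp only at h; omega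
  · simp only at h h1
    exact Prod.ext (by simp only; omega) h1.symm
  · simp only at h; omega
  · simp only at h; omega
  · have := congrArg Prod.fst h; simp only at this; omega
  · have := congrArg Prod.fst h; simp only at this; omega

/-- Both ends of a directed path which is not closed are on one side of the middle. -/
def Sd (φ : F3) (τ : ℕ → Bool) (a b c : ℕ × ℕ) : Prop :=
  (lev φ τ a < lev φ τ b ∧ lev φ τ c < lev φ τ b) ∨ (lev φ τ b < lev φ τ a ∧ lev φ τ b < lev φ τ c)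

theorem path2 (hτ : ∀ j < φ.length, τ (lt φ (3 * j)).2 = (lt φ (3 * j)).1 ∨
    τ (lt φ (3 * j + 1)).2 = (lt φ (3 * j + 1)).1 ∨
    τ (lt φ (3 * j + 2)).2 = (lt φ (3 * j + 2)).1) {a b c : ℕ × ℕ} (hab : Arc φ a b)
    (hbc : Arc φ b c) : Arc φ a c ∨ Sd φ τ a b c := by
  obtain ⟨k, j⟩ := b
  have hsat : j < φ.length → LT φ τ (3 * j) = true ∨ LT φ τ (3 * j + 1) = true ∨
      LT φ τ (3 * j + 2) = true := by
    intro hj
    unfold LT
    simp only [beq_iff_eq]
    exact hτ j hj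
  have ca : j < φ.length → ∀ s t, cl s t = true → Arc φ (s, j) (t, j) :=
    fun hj s t hst => Or.inr (Or.inl ⟨rfl, hj, hst⟩)
  by_cases h3 : k < 3
  · right
    have h1 := hub_ext (τ := τ) (H := (k, j)) h3 (Or.inl hab)
    have h2 := hub_ext (τ := τ) (H := (k, j)) h3 (Or.inr hbc)
    unfold Sd
    omega
  have hk : k = 9 ∨ k = 10 ∨ k = 11 ∨ k = 12 := by
    have e1 := hub_cases (lt φ (3 * a.2))
    have e2 := hub_cases (lt φ (3 * a.2 + 2))
    have e3 := hub_cases (lt φ (3 * c.2 + 1))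
    unfold Arc at hab hbc
    rw [cl_iff] at hab hbc
    have g1 : k = 9 ∨ k = 10 ∨ k = 11 ∨ k = 12 ∨ (6 ≤ k ∧ k < 9) ∨ k = 14 ∨ k = 16 := by
      rcases hab with h | h | ⟨_, _, h⟩ | ⟨_, _, h⟩ | h | h
      · simp only at h; omega
      · simp only at h; omega
      · have := congrArg Prod.fst h; simp only at this; omega
      · have := congrArg Prod.fst h; simp only at this; omega
      · simp only at h; omega
      · simp only at h; omega
    have g2 : k = 9 ∨ k = 10 ∨ k = 11 ∨ k = 12 ∨ k < 6 ∨ k = 13 ∨ k = 15 := by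
      rcases hbc with h | h | h | h | ⟨_, _, h⟩ | ⟨_, _, h⟩
      · simp only at h; omega
      · simp only at h; omega
      · simp only at h; omega
      · simp only at h; omega
      · have := congrArg Prod.fst h; simp only at this; omega
      · have := congrArg Prod.fst h; simp only at this; omega
    omega
  have l9 : lev φ τ (9, j) = px (LT φ τ (3 * j)) (LT φ τ (3 * j + 1)) (LT φ τ (3 * j + 2)) 9 := rfl
  have l10 : lev φ τ (10, j) =
    px (LT φ τ (3 * j)) (LT φ τ (3 * j + 1)) (LT φ τ (3 * j + 2)) 10 := rfl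
  have l11 : lev φ τ (11, j) =
    px (LT φ τ (3 * j)) (LT φ τ (3 * j + 1)) (LT φ τ (3 * j + 2)) 11 := rfl
  have l12 : lev φ τ (12, j) =
    px (LT φ τ (3 * j)) (LT φ τ (3 * j + 1)) (LT φ τ (3 * j + 2)) 12 := rfl
  have l13 : lev φ τ (13, j) = if LT φ τ (3 * j) then 1 else 7 := rfl
  have l14 : lev φ τ (14, j) = if LT φ τ (3 * j + 1) then 1 else 7 := rfl
  have l15 : lev φ τ (15, j) = if LT φ τ (3 * j + 2) then 1 else 7 := rfl
  have l16 : lev φ τ (16, j) = 7 := rfl
  have l2 : lev φ τ (2, 0) = 8 := rfl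
  have b9 := px_bd (LT φ τ (3 * j)) (LT φ τ (3 * j + 1)) (LT φ τ (3 * j + 2)) 9
  have b10 := px_bd (LT φ τ (3 * j)) (LT φ τ (3 * j + 1)) (LT φ τ (3 * j + 2)) 10
  have b11 := px_bd (LT φ τ (3 * j)) (LT φ τ (3 * j + 1)) (LT φ τ (3 * j + 2)) 11
  have b12 := px_bd (LT φ τ (3 * j)) (LT φ τ (3 * j + 1)) (LT φ τ (3 * j + 2)) 12
  rcases hk with rfl | rfl | rfl | rfl
  · obtain ⟨hj, rfl⟩ := in9 hab
    obtain ⟨s1, s2, _⟩ := px_spec _ _ _ (hsat hj)
    rcases out9 hbc with rfl | rfl | rfl | rfl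
    · right
      unfold Sd
      rw [l9, l10, l13]
      cases hL : LT φ τ (3 * j) <;> rw [hL] at s1 s2 b9 <;> simp at s1 s2 ⊢ <;> omega
    · left; exact ca hj 13 12 rfl
    · left; exact ca hj 13 14 rfl
    · right
      unfold Sd
      rw [l9, l13, lev_hub]
      cases hL : LT φ τ (3 * j) <;> rw [hL] at b9 <;> simp <;> omega
  · obtain ⟨hj, ha⟩ := in10 hab
    have hc := out10 hbc
    subst hc
    obtain ⟨_, _, s3, s4, _⟩ := px_spec _ _ _ (hsat hj)
    rcases ha with rfl | rfl | rfl | rfl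
    · left; exact ca hj 9 14 rfl
    · right
      unfold Sd
      rw [l11, l10, l14]
      cases hL : LT φ τ (3 * j + 1) <;> rw [hL] at s3 s4 b10 <;> simp at s3 s4 ⊢ <;> omega
    · left; exact ca hj 15 14 rfl
    · right
      unfold Sd
      rw [l10, l14, lev_hub]
      cases hL : LT φ τ (3 * j + 1) <;> rw [hL] at b10 <;> simp <;> omega
  · obtain ⟨hj, rfl⟩ := in11 hab
    obtain ⟨_, _, _, _, s5, s6, _⟩ := px_spec _ _ _ (hsat hj)
    rcases out11 hbc with rfl | rfl | rfl | rfl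
    · left; exact ca hj 15 10 rfl
    · right
      unfold Sd
      rw [l11, l12, l15]
      cases hL : LT φ τ (3 * j + 2) <;> rw [hL] at s5 s6 b11 <;> simp at s5 s6 ⊢ <;> omega
    · left; exact ca hj 15 16 rfl
    · right
      unfold Sd
      rw [l11, l15, lev_hub]
      cases hL : LT φ τ (3 * j + 2) <;> rw [hL] at b11 <;> simp <;> omega
  · obtain ⟨hj, ha⟩ := in12 hab
    have hc := out12 hbc
    subst hc
    obtain ⟨_, _, _, _, _, _, s7⟩ := px_spec _ _ _ (hsat hj)
    rcases ha with rfl | rfl | rfl | rfl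
    · right
      unfold Sd
      rw [l9, l12, l16]
      omega
    · left; exact ca hj 11 16 rfl
    · left; exact ca hj 13 16 rfl
    · right
      unfold Sd
      rw [l12, l16, l2]
      omega

/-- The positions. -/
def pos (φ : F3) (τ : ℕ → Bool) (u : ℕ × ℕ) : ℕ :=
  lev φ τ u * (51 * φ.length) + (u.1 + 17 * u.2)

theorem pos_lt {u v : ℕ × ℕ} (hu : u.1 < 17) (hu2 : u.2 < 3 * φ.length)
    (h : lev φ τ u < lev φ τ v) : pos φ τ u < pos φ τ v := by
  unfold pos
  have h1 : (lev φ τ u + 1) * (51 * φ.length) ≤ lev φ τ v * (51 * φ.length) :=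
    Nat.mul_le_mul_right _ h
  rw [Nat.add_mul] at h1
  omega

theorem pos_inj {u v : ℕ × ℕ} (hu : u.1 < 17) (hu2 : u.2 < 3 * φ.length) (hv : v.1 < 17)
    (hv2 : v.2 < 3 * φ.length) (h : pos φ τ u = pos φ τ v) : u = v := by
  rcases Nat.lt_trichotomy (lev φ τ u) (lev φ τ v) with h1 | h1 | h1
  · have := pos_lt hu hu2 h1; omega
  · unfold pos at h
    rw [h1] at h
    exact Prod.ext (by omega) (by omega)
  · have := pos_lt hv hv2 h1; omega

theorem good_pos (hτ : ∀ j < φ.length, τ (lt φ (3 * j)).2 = (lt φ (3 * j)).1 ∨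
    τ (lt φ (3 * j + 1)).2 = (lt φ (3 * j + 1)).1 ∨
    τ (lt φ (3 * j + 2)).2 = (lt φ (3 * j + 2)).1) : Good φ (pos φ τ) := by
  have key : ∀ a b c : ℕ × ℕ, a.1 < 17 → a.2 < 3 * φ.length → b.1 < 17 → b.2 < 3 * φ.length →
      c.1 < 17 → c.2 < 3 * φ.length → Sd φ τ a b c →
      (pos φ τ a < pos φ τ b ∧ pos φ τ c < pos φ τ b) ∨
      (pos φ τ b < pos φ τ a ∧ pos φ τ b < pos φ τ c) := by
    intro a b c ha ha2 hb hb2 hc hc2 h
    rcases h with h | h
    · exact Or.inl ⟨pos_lt ha ha2 h.1, pos_lt hc hc2 h.2⟩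
    · exact Or.inr ⟨pos_lt hb hb2 h.1, pos_lt hb hb2 h.2⟩
  intro x y z hx hx2 hy hy2 hz hz2 hxy hyz
  constructor
  · intro h1 h2
    rcases path2 hτ h1 h2 with h | h
    · exact h
    · have := key x y z hx hx2 hy hy2 hz hz2 h
      omega
  · intro h1 h2
    rcases path2 hτ h1 h2 with h | h
    · exact h
    · have := key z y x hz hz2 hy hy2 hx hx2 h
      omega

end Pool.Agent.Q329.CD
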