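import Pool.Agent.NPC.Classes

/-!
# Comparability digraphs: definitions
-/

namespace Pool.Agent.Q329.CD

open Pool.Agent.NPC

/-- The positions `ρ` (distinct natural numbers) give a comparability ordering of the digraph `A`:
for `x` before `y` before `z`, arcs `xy` and `yz` imply the arc `xz`, and arcs `zy` and `yx` imply
the arc `zx`. -/
def IsComparabilityOrdering {n : ℕ} (A : Fin n → Fin n → Bool) (ρ : Fin n → ℕ) : Prop :=
  Function.Injective ρ ∧ ∀ x y z, ρ x < ρ y → ρ y < ρ z →
    (A x y = true → A y z = true → A x z = true) ∧ (A z y = true → A y x = true → A z x = true)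

/-- The digraph has a comparability ordering. -/
def IsComparabilityDigraph {n : ℕ} (A : Fin n → Fin n → Bool) : Prop :=
  ∃ ρ, IsComparabilityOrdering A ρ

/-- The adjacency matrix. -/
def mat {n : ℕ} (A : Fin n → Fin n → Bool) : List (List Bool) :=
  List.ofFn fun i => List.ofFn fun j => A i j

/-- The recognition problem: the input is the adjacency matrix of a comparability digraph (without
loops). -/
def Recog (m : List (List Bool)) : Prop :=
  ∃ (n : ℕ) (A : Fin n → Fin n → Bool), (∀ x, A x x = false) ∧ mat A = m ∧
    IsComparabilityDigraph A

end Pool.Agent.Q329.CD
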