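import Pool.Agent.Q329.PSy.Lab
import Pool.Agent.Q329.CD.Defs

/-!
# The digraph of a formula, on labels
-/

namespace Pool.Agent.Q329.CD

open Pool.Agent.NPC Pool.Agent.Q329.PSy

/-- The hub of a literal. -/
def hub (l : Bool × ℕ) : ℕ × ℕ := (if l.1 then 1 else 0, l.2)

theorem hub_cases (l : Bool × ℕ) : (hub l).1 = 0 ∨ (hub l).1 = 1 := by
  unfold hub
  cases l.1
  · exact Or.inl rfl
  · exact Or.inr rfl

/-- The arcs of a clause gadget, on types. -/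
def cl (s t : ℕ) : Bool :=
  ((decide (s = 9)) && ((decide (t = 10)) || (decide (t = 12)) || (decide (t = 14)))) ||
  ((decide (s = 11)) && ((decide (t = 10)) || (decide (t = 12)) || (decide (t = 16)))) ||
  ((decide (s = 13)) && ((decide (t = 9)) || (decide (t = 12)) || (decide (t = 14)) || (decide (t = 16)))) ||
  ((decide (s = 15)) && ((decide (t = 11)) || (decide (t = 10)) || (decide (t = 14)) || (decide (t = 16)))) ||
  ((decide (s = 10)) && (decide (t = 14))) || ((decide (s = 12)) && (decide (t = 16)))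

theorem cl_iff {s t : ℕ} : cl s t = true ↔
    (s = 9 ∧ (t = 10 ∨ t = 12 ∨ t = 14)) ∨ (s = 11 ∧ (t = 10 ∨ t = 12 ∨ t = 16)) ∨
    (s = 13 ∧ (t = 9 ∨ t = 12 ∨ t = 14 ∨ t = 16)) ∨
    (s = 15 ∧ (t = 11 ∨ t = 10 ∨ t = 14 ∨ t = 16)) ∨
    (s = 10 ∧ t = 14) ∨ (s = 12 ∧ t = 16) := by
  unfold cl
  simp only [Bool.or_eq_true, Bool.and_eq_true, decide_eq_true_eq]
  tauto

/-- The arcs. -/
def arc (φ : F3) (u v : ℕ × ℕ) : Bool :=
  (decide (u.2 = v.2) && ((decide (u.1 = v.1 + 3) && decide (v.1 < 3)) ||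
    (decide (v.1 = u.1 + 6) && decide (u.1 < 3)) || (decide (u.1 = 1) && decide (v.1 = 0)))) ||
  (decide (u.2 = v.2) && decide (u.2 < φ.length) && cl u.1 v.1) ||
  (decide (u.1 = 9) && decide (u.2 < φ.length) && decide (v = hub (lt φ (3 * u.2)))) ||
  (decide (u.1 = 11) && decide (u.2 < φ.length) && decide (v = hub (lt φ (3 * u.2 + 2)))) ||
  (decide (v.1 = 10) && decide (v.2 < φ.length) && decide (u = hub (lt φ (3 * v.2 + 1)))) ||
  (decide (v.1 = 12) && decide (v.2 < φ.length) && decide (u = (2, 0)))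

/-- The arcs, as a proposition. -/
def Arc (φ : F3) (u v : ℕ × ℕ) : Prop :=
  (u.2 = v.2 ∧ ((u.1 = v.1 + 3 ∧ v.1 < 3) ∨ (v.1 = u.1 + 6 ∧ u.1 < 3) ∨ (u.1 = 1 ∧ v.1 = 0))) ∨
  (u.2 = v.2 ∧ u.2 < φ.length ∧ cl u.1 v.1 = true) ∨
  (u.1 = 9 ∧ u.2 < φ.length ∧ v = hub (lt φ (3 * u.2))) ∨
  (u.1 = 11 ∧ u.2 < φ.length ∧ v = hub (lt φ (3 * u.2 + 2))) ∨
  (v.1 = 10 ∧ v.2 < φ.length ∧ u = hub (lt φ (3 * v.2 + 1))) ∨
  (v.1 = 12 ∧ v.2 < φ.length ∧ u = (2, 0))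

theorem arc_iff {φ : F3} {u v : ℕ × ℕ} : arc φ u v = true ↔ Arc φ u v := by
  unfold arc Arc
  simp only [Bool.or_eq_true, Bool.and_eq_true, decide_eq_true_eq]
  tauto

/-- The position function is a comparability ordering on the labels. -/
def Good (φ : F3) (ρ : ℕ × ℕ → ℕ) : Prop :=
  ∀ x y z : ℕ × ℕ, x.1 < 17 → x.2 < 3 * φ.length → y.1 < 17 → y.2 < 3 * φ.length →
    z.1 < 17 → z.2 < 3 * φ.length → ρ x < ρ y → ρ y < ρ z →
    (Arc φ x y → Arc φ y z → Arc φ x z) ∧ (Arc φ z y → Arc φ y x → Arc φ z x)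

/-- In a comparability ordering the middle vertex of a directed path which is not closed is not
between the ends. -/
theorem good_use {φ : F3} {ρ : ℕ × ℕ → ℕ} (h : Good φ ρ)
    (hinj : ∀ x y : ℕ × ℕ, x.1 < 17 → x.2 < 3 * φ.length → y.1 < 17 → y.2 < 3 * φ.length →
      ρ x = ρ y → x = y)
    {a b c : ℕ × ℕ} (ha : a.1 < 17 ∧ a.2 < 3 * φ.length) (hb : b.1 < 17 ∧ b.2 < 3 * φ.length)
    (hc : c.1 < 17 ∧ c.2 < 3 * φ.length) (hab : Arc φ a b) (hbc : Arc φ b c)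
    (hac : ¬ Arc φ a c) (h1 : a ≠ b) (h2 : b ≠ c) : ρ a < ρ b ↔ ρ c < ρ b := by
  have e1 : ρ a ≠ ρ b := fun h => h1 (hinj a b ha.1 ha.2 hb.1 hb.2 h)
  have e2 : ρ b ≠ ρ c := fun h => h2 (hinj b c hb.1 hb.2 hc.1 hc.2 h)
  constructor
  · intro h3
    by_contra h4
    exact hac ((h a b c ha.1 ha.2 hb.1 hb.2 hc.1 hc.2 h3 (by omega)).1 hab hbc)
  · intro h3
    by_contra h4
    exact hac ((h c b a hc.1 hc.2 hb.1 hb.2 ha.1 ha.2 h3 (by omega)).2 hab hbc)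

end Pool.Agent.Q329.CD
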