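import Pool.Agent.Q329.CD.Comp
import Pool.Agent.NPC.Dec
import Pool.Agent.H671R2.PolyAuto
import Pool.Agent.H671R2.GraphEnc

/-!
# Recognising comparability digraphs is NP-hard
-/

namespace Pool.Agent.Q329.CD

open Pool.Agent.NPC Pool.Agent.Q329.PSy

/-- The number of vertices. -/
def NN (φ : F3) : ℕ := 17 * (3 * φ.length)

/-- The label of a vertex. -/
def lab (u : ℕ) : ℕ × ℕ := (u % 17, u / 17)

/-- The vertex with a label. -/
def cod (a : ℕ × ℕ) : ℕ := a.1 + 17 * a.2

theorem lab_cod {a : ℕ × ℕ} (h : a.1 < 17) : lab (cod a) = a := by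
  unfold lab cod
  refine Prod.ext ?_ ?_
  · simp only; omega
  · simp only; omega

theorem cod_lab (u : ℕ) : cod (lab u) = u := by
  unfold lab cod
  simp only
  omega

theorem lab_inj {u v : ℕ} (h : lab u = lab v) : u = v := by rw [← cod_lab u, h, cod_lab]

theorem lab_lt {φ : F3} {u : ℕ} (h : u < NN φ) : (lab u).1 < 17 ∧ (lab u).2 < 3 * φ.length := by
  unfold NN at h
  unfold lab
  simp only
  omega

theorem cod_lt {φ : F3} {a : ℕ × ℕ} (h : a.1 < 17) (h' : a.2 < 3 * φ.length) : cod a < NN φ := by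
  unfold NN cod
  omega

/-- The digraph. -/
def Af (φ : F3) (u v : Fin (NN φ)) : Bool := arc φ (lab u) (lab v)

theorem Af_irrefl (φ : F3) (u : Fin (NN φ)) : Af φ u u = false := by
  unfold Af
  by_contra h
  rw [Bool.not_eq_false, arc_iff] at h
  exact h.ne rfl

theorem comp_iff {φ : F3} (hb : Bounded3 φ) : IsComparabilityDigraph (Af φ) ↔ SAT3 φ := by
  constructor
  · rintro ⟨ρ, hinj, h⟩
    obtain ⟨R, hR⟩ : ∃ R : ℕ × ℕ → ℕ, ∀ u : Fin (NN φ), R (lab u) = ρ u := by
      refine ⟨fun a => if h : cod a < NN φ then ρ ⟨cod a, h⟩ else 0, fun u => ?_⟩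
      simp only [cod_lab, u.2, dif_pos]
    have hR' : ∀ (a : ℕ × ℕ) (h1 : a.1 < 17) (h2 : a.2 < 3 * φ.length),
        R a = ρ ⟨cod a, cod_lt h1 h2⟩ := by
      intro a h1 h2
      have := hR ⟨cod a, cod_lt h1 h2⟩
      simp only [lab_cod h1] at this
      exact this
    refine sound (φ := φ) (ρ := R) ?_ ?_ hb
    · intro x y z hx hx2 hy hy2 hz hz2 hxy hyz
      rw [hR' x hx hx2, hR' y hy hy2] at hxy
      rw [hR' y hy hy2, hR' z hz hz2] at hyz
      have := h _ _ _ hxy hyz
      unfold Af at this
      simp only [lab_cod hx, lab_cod hy, lab_cod hz, arc_iff] at this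
      exact this
    · intro x y hx hx2 hy hy2 hxy
      rw [hR' x hx hx2, hR' y hy hy2] at hxy
      have h1 := congrArg Fin.val (hinj hxy)
      simp only at h1
      rw [← lab_cod hx, h1, lab_cod hy]
  · rintro ⟨τ, hτ⟩
    rw [sat_iff] at hτ
    refine ⟨fun u => pos φ τ (lab u), fun u v h => ?_, fun x y z hxy hyz => ?_⟩
    · exact Fin.ext (lab_inj (pos_inj (lab_lt u.2).1 (lab_lt u.2).2 (lab_lt v.2).1
        (lab_lt v.2).2 h))
    · have := good_pos hτ (lab x) (lab y) (lab z) (lab_lt x.2).1 (lab_lt x.2).2 (lab_lt y.2).1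
        (lab_lt y.2).2 (lab_lt z.2).1 (lab_lt z.2).2 hxy hyz
      unfold Af
      simp only [arc_iff]
      exact this

/-- The instance. -/
def out (φ : F3) : List (List Bool) :=
  (List.range (NN φ)).map fun u => (List.range (NN φ)).map fun v => arc φ (lab u) (lab v)

theorem mat_Af (φ : F3) : mat (Af φ) = out φ := by
  unfold mat out
  refine List.ext_getElem (by simp) fun i h1 h2 => ?_
  simp only [List.length_ofFn] at h1
  simp only [List.getElem_ofFn, List.getElem_map, List.getElem_range]
  refine List.ext_getElem (by simp) fun j h3 h4 => ?_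
  simp only [List.getElem_ofFn, List.getElem_map, List.getElem_range]
  rfl

theorem mat_inj {n m : ℕ} {A : Fin n → Fin n → Bool} {B : Fin m → Fin m → Bool}
    (h : mat A = mat B) : IsComparabilityDigraph A ↔ IsComparabilityDigraph B := by
  unfold mat at h
  have hn : n = m := by
    have := congrArg List.length h
    simpa using this
  subst hn
  have h2 := List.ofFn_injective h
  have hAB : A = B := by
    funext u
    exact List.ofFn_injective (congrFun h2 u)
  rw [hAB]

/-! ### Polynomial time -/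

variable {α : Type} [TEnc α]

theorem poly_lt {F : α → F3} {l : α → ℕ} (hF : Poly F) (hl : Poly l) :
    Poly (fun a => lt (F a) (l a)) := by
  unfold lt lits
  fun_prop

theorem poly_hub {l : α → Bool × ℕ} (hl : Poly l) : Poly (fun a => hub (l a)) := by
  unfold hub
  fun_prop

theorem poly_cl {s t : α → ℕ} (hs : Poly s) (ht : Poly t) : Poly (fun a => cl (s a) (t a)) := by
  unfold cl
  fun_prop

attribute [local fun_prop] poly_lt poly_hub poly_cl

theorem poly_arc {F : α → F3} {u v : α → ℕ × ℕ} (hF : Poly F) (hu : Poly u) (hv : Poly v) :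
    Poly (fun a => arc (F a) (u a) (v a)) := by
  unfold arc
  fun_prop

attribute [local fun_prop] poly_arc

theorem poly_lab {u : α → ℕ} (hu : Poly u) : Poly (fun a => lab (u a)) := by
  unfold lab
  fun_prop

attribute [local fun_prop] poly_lab

theorem poly_range {F : α → F3} (hF : Poly F) : Poly (fun a => List.range (NN (F a))) :=
  (NPC.Poly.range_length (l := fun a => (F a).flatMap fun _ => List.replicate 51 true)
    (by fun_prop)).congr fun a => by
    unfold NN
    rw [List.length_flatMap]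
    simp
    ring_nf

attribute [local fun_prop] poly_range

theorem poly_out : Poly out := by
  unfold out
  fun_prop

/-! ### The main results -/

theorem hard : HardPr (fun m => ∃ (n : ℕ) (A : Fin n → Fin n → Bool), (∀ x, A x x = false) ∧
    mat A = m) Recog :=
  hardPr_SAT3b.trans poly_out (fun φ _ => ⟨_, _, Af_irrefl φ, mat_Af φ⟩)
    fun φ h => by
      rw [← comp_iff h.2.1]
      constructor
      · intro h1
        exact ⟨_, _, Af_irrefl φ, mat_Af φ, h1⟩
      · rintro ⟨n, A, _, h2, h3⟩
        exact (mat_inj (h2.trans (mat_Af φ).symm)).1 h3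

theorem collapse {D : List Bool → List Bool} (hD : PolyTime D)
    (h : ∀ (n : ℕ) (A : Fin n → Fin n → Bool), (∀ x, A x x = false) →
      (D (bits (mat A)) = [true] ↔ IsComparabilityDigraph A)) (L : Set (List Bool))
    (hL : InNP L) : InP L := by
  obtain ⟨f, hf, hpr, hfL⟩ := hard L hL
  refine ⟨fun x => D (bits (f x)), H642R2.TMSim.polyTime_comp hD (PC.toPolyTime hf),
    fun x => ?_⟩
  obtain ⟨n, A, hA, hm⟩ := hpr x
  have hfx : x ∈ L ↔ Recog (f x) := hfL x
  change x ∈ L ↔ D (bits (f x)) = [true]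
  rw [hfx, ← hm, h n A hA]
  constructor
  · rintro ⟨n', A', _, h2, h3⟩
    exact (mat_inj h2).1 h3
  · intro h'
    exact ⟨n, A, hA, rfl, h'⟩

end Pool.Agent.Q329.CD
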