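import Pool.Agent.Q329.CD.Lab

/-!
# From comparability orderings to satisfying assignments
-/

namespace Pool.Agent.Q329.CD

open Pool.Agent.NPC Pool.Agent.Q329.PSy

variable {φ : F3} {ρ : ℕ × ℕ → ℕ}

theorem arc_w {u : ℕ × ℕ} {k i : ℕ} (hk : k < 3) (h : Arc φ u (k + 6, i)) : u = (k, i) := by
  have := hub_cases (lt φ (3 * u.2))
  have := hub_cases (lt φ (3 * u.2 + 2))
  unfold Arc at h
  rw [cl_iff] at h
  simp only at h
  rcases h with h | h | ⟨_, _, h⟩ | ⟨_, _, h⟩ | h | h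
  · refine Prod.ext ?_ ?_
    · simp only; omega
    · simp only; omega
  · omega
  · have := congrArg Prod.fst h; simp only at this; omega
  · have := congrArg Prod.fst h; simp only at this; omega
  · omega
  · omega

theorem arc_u {v : ℕ × ℕ} {k i : ℕ} (hk : k < 3) (h : Arc φ (k + 3, i) v) : v = (k, i) := by
  have := hub_cases (lt φ (3 * v.2 + 1))
  unfold Arc at h
  rw [cl_iff] at h
  simp only at h
  rcases h with h | h | h | h | ⟨_, _, h⟩ | ⟨_, _, h⟩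
  · refine Prod.ext ?_ ?_
    · simp only; omega
    · simp only; omega
  · omega
  · omega
  · omega
  · have := congrArg Prod.fst h; simp only at this; omega
  · have := congrArg Prod.fst h; simp only at this; omega

theorem Arc.ne {u v : ℕ × ℕ} (h : Arc φ u v) : u ≠ v := by
  rintro rfl
  have := hub_cases (lt φ (3 * u.2))
  have := hub_cases (lt φ (3 * u.2 + 2))
  have := hub_cases (lt φ (3 * u.2 + 1))
  unfold Arc at h
  rw [cl_iff] at h
  rcases h with h | h | ⟨h1, _, h⟩ | ⟨h1, _, h⟩ | ⟨h1, _, h⟩ | ⟨h1, _, h⟩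
  · omega
  · omega
  · have := congrArg Prod.fst h; omega
  · have := congrArg Prod.fst h; omega
  · have := congrArg Prod.fst h; omega
  · have := congrArg Prod.fst h; simp only at this; omega

/-- The bit of a hub: whether it is before its private out-neighbour. -/
def bet (ρ : ℕ × ℕ → ℕ) (h : ℕ × ℕ) : Prop := ρ h < ρ (h.1 + 6, h.2)

section

variable (h : Good φ ρ) (hinj : ∀ x y : ℕ × ℕ, x.1 < 17 → x.2 < 3 * φ.length → y.1 < 17 →
  y.2 < 3 * φ.length → ρ x = ρ y → x = y)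

include h hinj

theorem hub_in {H a : ℕ × ℕ} (hH : H.1 < 3) (hH2 : H.2 < 3 * φ.length)
    (ha : a.1 < 17 ∧ a.2 < 3 * φ.length) (haH : Arc φ a H) : ρ H < ρ a ↔ bet ρ H := by
  have hw : Arc φ H (H.1 + 6, H.2) := Or.inl ⟨rfl, Or.inr (Or.inl ⟨rfl, hH⟩)⟩
  have h1 := good_use h hinj ha ⟨by omega, hH2⟩ (c := (H.1 + 6, H.2)) ⟨by simp only; omega, hH2⟩
    haH hw (fun h' => haH.ne (arc_w hH h')) haH.ne (Arc.ne hw)
  have e1 : ρ a ≠ ρ H := fun h' => haH.ne (hinj a H ha.1 ha.2 (by omega) hH2 h')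
  have e2 : ρ (H.1 + 6, H.2) ≠ ρ H := fun h' => (Arc.ne hw).symm
    (hinj _ H (by simp only; omega) hH2 (by omega) hH2 h')
  unfold bet
  omega

theorem hub_out {H c : ℕ × ℕ} (hH : H.1 < 3) (hH2 : H.2 < 3 * φ.length)
    (hc : c.1 < 17 ∧ c.2 < 3 * φ.length) (hHc : Arc φ H c) : ρ H < ρ c ↔ bet ρ H := by
  have hw : Arc φ H (H.1 + 6, H.2) := Or.inl ⟨rfl, Or.inr (Or.inl ⟨rfl, hH⟩)⟩
  have hu : Arc φ (H.1 + 3, H.2) H := Or.inl ⟨rfl, Or.inl ⟨rfl, hH⟩⟩
  have hu' : ((H.1 + 3, H.2) : ℕ × ℕ).1 < 17 ∧ ((H.1 + 3, H.2) : ℕ × ℕ).2 < 3 * φ.length :=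
    ⟨by simp only; omega, hH2⟩
  have hw' : ((H.1 + 6, H.2) : ℕ × ℕ).1 < 17 ∧ ((H.1 + 6, H.2) : ℕ × ℕ).2 < 3 * φ.length :=
    ⟨by simp only; omega, hH2⟩
  have h1 := good_use h hinj hu' ⟨by omega, hH2⟩ hc hu hHc
    (fun h' => hHc.ne (arc_u hH h').symm) hu.ne hHc.ne
  have h2 := good_use h hinj hu' ⟨by omega, hH2⟩ hw' hu hw
    (fun h' => hw.ne (arc_u hH h').symm) hu.ne hw.ne
  have e1 : ρ H ≠ ρ c := fun h' => hHc.ne (hinj H c (by omega) hH2 hc.1 hc.2 h')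
  have e2 : ρ (H.1 + 6, H.2) ≠ ρ H := fun h' => hw.ne.symm
    (hinj _ H hw'.1 hw'.2 (by omega) hH2 h')
  unfold bet
  omega

theorem hub_neg {i : ℕ} (hi : i < 3 * φ.length) : bet ρ (0, i) ↔ ¬ bet ρ (1, i) := by
  have ha : Arc φ (1, i) (0, i) := Or.inl ⟨rfl, Or.inr (Or.inr ⟨rfl, rfl⟩)⟩
  have h1 := hub_in h hinj (H := (0, i)) (a := (1, i)) (by norm_num) hi ⟨by norm_num, hi⟩ ha
  have h2 := hub_out h hinj (H := (1, i)) (c := (0, i)) (by norm_num) hi ⟨by norm_num, hi⟩ ha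
  have e : ρ (1, i) ≠ ρ (0, i) := fun h' => ha.ne
    (hinj (1, i) (0, i) (by norm_num) hi (by norm_num) hi h')
  rw [← h1, ← h2]
  omega

theorem sound (hb : Bounded3 φ) : SAT3 φ := by
  classical
  obtain ⟨τ, hτ⟩ : ∃ τ : ℕ → Bool, ∀ i, τ i = decide ¬ (bet ρ (1, i) ↔ bet ρ (2, 0)) :=
    ⟨_, fun _ => rfl⟩
  have hlit : ∀ l < 3 * φ.length, ¬ τ (lt φ l).2 = (lt φ l).1 →
      (bet ρ (hub (lt φ l)) ↔ bet ρ (2, 0)) := by
    intro l hl hc
    have hi := lt_lt hb hl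
    rw [hτ] at hc
    have hneg := hub_neg h hinj hi
    unfold hub
    cases hb' : (lt φ l).1 with
    | true =>
      rw [hb', decide_eq_true_iff] at hc
      simp only [if_true]
      tauto
    | false =>
      rw [hb', decide_eq_false_iff_not] at hc
      simp only [Bool.false_eq_true, if_false]
      tauto
  refine ⟨τ, (sat_iff φ τ).2 fun j hj => ?_⟩
  by_contra hc
  push Not at hc
  obtain ⟨c1, c2, c3⟩ := hc
  have hj3 : j < 3 * φ.length := by omega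
  have d1 := hlit _ (by omega) c1
  have d2 := hlit _ (by omega) c2
  have d3 := hlit _ (by omega) c3
  have i1 := lt_lt hb (show 3 * j < 3 * φ.length by omega)
  have i2 := lt_lt hb (show 3 * j + 1 < 3 * φ.length by omega)
  have i3 := lt_lt hb (show 3 * j + 2 < 3 * φ.length by omega)
  have t1 := hub_cases (lt φ (3 * j))
  have t2 := hub_cases (lt φ (3 * j + 1))
  have t3 := hub_cases (lt φ (3 * j + 2))
  set Ha := hub (lt φ (3 * j)) with hHa
  set Hb := hub (lt φ (3 * j + 1)) with hHb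
  set Hc := hub (lt φ (3 * j + 2)) with hHc
  have v : ∀ t, t < 17 → ((t, j) : ℕ × ℕ).1 < 17 ∧ ((t, j) : ℕ × ℕ).2 < 3 * φ.length :=
    fun t ht => ⟨ht, hj3⟩
  have va : Ha.1 < 17 ∧ Ha.2 < 3 * φ.length := ⟨by omega, i1⟩
  have vb : Hb.1 < 17 ∧ Hb.2 < 3 * φ.length := ⟨by omega, i2⟩
  have vc : Hc.1 < 17 ∧ Hc.2 < 3 * φ.length := ⟨by omega, i3⟩
  have vd : ((2, 0) : ℕ × ℕ).1 < 17 ∧ ((2, 0) : ℕ × ℕ).2 < 3 * φ.length :=
    ⟨by norm_num, by simp only; omega⟩
  have ca : ∀ s t, cl s t = true → Arc φ (s, j) (t, j) := fun s t hst => Or.inr (Or.inl ⟨rfl, hj, hst⟩)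
  have a1 : Arc φ (9, j) Ha := Or.inr (Or.inr (Or.inl ⟨rfl, hj, rfl⟩))
  have a3 : Arc φ (11, j) Hc := Or.inr (Or.inr (Or.inr (Or.inl ⟨rfl, hj, rfl⟩)))
  have a2 : Arc φ Hb (10, j) := Or.inr (Or.inr (Or.inr (Or.inr (Or.inl ⟨rfl, hj, rfl⟩))))
  have a4 : Arc φ (2, 0) (12, j) := Or.inr (Or.inr (Or.inr (Or.inr (Or.inr ⟨rfl, hj, rfl⟩))))
  have n1 : ¬ Arc φ (13, j) (10, j) := by
    unfold Arc; rw [cl_iff]
    rintro (h | h | h | h | ⟨_, _, h⟩ | h)
    · simp only at h; omega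
    · simp only at h; omega
    · simp only at h; omega
    · simp only at h; omega
    · have t := hub_cases (lt φ (3 * j + 1))
      have := congrArg Prod.fst h; simp only at this; omega
    · simp only at h; omega
  have n2 : ¬ Arc φ (13, j) Ha := by
    unfold Arc; rw [cl_iff]
    rintro (h | h | ⟨h, _⟩ | ⟨h, _⟩ | ⟨h, _⟩ | ⟨h, _⟩) <;> (try simp only at h) <;> omega
  have n3 : ¬ Arc φ (15, j) (12, j) := by
    unfold Arc; rw [cl_iff]
    rintro (h | h | h | h | h | ⟨_, _, h⟩)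
    · simp only at h; omega
    · simp only at h; omega
    · simp only at h; omega
    · simp only at h; omega
    · simp only at h; omega
    · have := congrArg Prod.fst h; simp only at this; omega
  have n4 : ¬ Arc φ (15, j) Hc := by
    unfold Arc; rw [cl_iff]
    rintro (h | h | ⟨h, _⟩ | ⟨h, _⟩ | ⟨h, _⟩ | ⟨h, _⟩) <;> (try simp only at h) <;> omega
  have n5 : ¬ Arc φ (11, j) (14, j) := by
    unfold Arc; rw [cl_iff]
    rintro (h | h | h | ⟨_, _, h⟩ | h | h)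
    · simp only at h; omega
    · simp only at h; omega
    · simp only at h; omega
    · have t := hub_cases (lt φ (3 * j + 2))
      have := congrArg Prod.fst h; simp only at this; omega
    · simp only at h; omega
    · simp only at h; omega
  have n6 : ¬ Arc φ Hb (14, j) := by
    unfold Arc; rw [cl_iff]
    rintro (h | h | ⟨h, _⟩ | ⟨h, _⟩ | ⟨h, _⟩ | ⟨h, _⟩) <;> (try simp only at h) <;> omega
  have n7 : ¬ Arc φ (9, j) (16, j) := by
    unfold Arc; rw [cl_iff]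
    rintro (h | h | ⟨_, _, h⟩ | h | h | h)
    · simp only at h; omega
    · simp only at h; omega
    · have t := hub_cases (lt φ (3 * j))
      have := congrArg Prod.fst h; simp only at this; omega
    · simp only at h; omega
    · simp only at h; omega
    · simp only at h; omega
  have n8 : ¬ Arc φ (2, 0) (16, j) := by
    unfold Arc; rw [cl_iff]
    rintro (h | h | ⟨h, _⟩ | ⟨h, _⟩ | ⟨h, _⟩ | ⟨h, _⟩) <;> (try simp only at h) <;> omega
  have g1 := good_use h hinj (v 13 (by norm_num)) (v 9 (by norm_num)) (v 10 (by norm_num))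
    (ca 13 9 rfl) (ca 9 10 rfl) n1 (ca 13 9 rfl).ne (ca 9 10 rfl).ne
  have g2 := good_use h hinj (v 13 (by norm_num)) (v 9 (by norm_num)) va
    (ca 13 9 rfl) a1 n2 (ca 13 9 rfl).ne a1.ne
  have g3 := good_use h hinj (v 15 (by norm_num)) (v 11 (by norm_num)) (v 12 (by norm_num))
    (ca 15 11 rfl) (ca 11 12 rfl) n3 (ca 15 11 rfl).ne (ca 11 12 rfl).ne
  have g4 := good_use h hinj (v 15 (by norm_num)) (v 11 (by norm_num)) vc
    (ca 15 11 rfl) a3 n4 (ca 15 11 rfl).ne a3.ne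
  have g5 := good_use h hinj (v 11 (by norm_num)) (v 10 (by norm_num)) (v 14 (by norm_num))
    (ca 11 10 rfl) (ca 10 14 rfl) n5 (ca 11 10 rfl).ne (ca 10 14 rfl).ne
  have g6 := good_use h hinj vb (v 10 (by norm_num)) (v 14 (by norm_num))
    a2 (ca 10 14 rfl) n6 a2.ne (ca 10 14 rfl).ne
  have g7 := good_use h hinj (v 9 (by norm_num)) (v 12 (by norm_num)) (v 16 (by norm_num))
    (ca 9 12 rfl) (ca 12 16 rfl) n7 (ca 9 12 rfl).ne (ca 12 16 rfl).ne
  have g8 := good_use h hinj vd (v 12 (by norm_num)) (v 16 (by norm_num))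
    a4 (ca 12 16 rfl) n8 a4.ne (ca 12 16 rfl).ne
  have b1 := hub_in h hinj (H := Ha) (by omega) i1 (v 9 (by norm_num)) a1
  have b2 := hub_out h hinj (H := Hb) (by omega) i2 (v 10 (by norm_num)) a2
  have b3 := hub_in h hinj (H := Hc) (by omega) i3 (v 11 (by norm_num)) a3
  have b4 := hub_out h hinj (H := (2, 0)) (by norm_num) (by simp only; omega)
    (v 12 (by norm_num)) a4
  have ne1 : ρ (9, j) ≠ ρ (10, j) := fun h' => (ca 9 10 rfl).ne
    (hinj _ _ (by norm_num) hj3 (by norm_num) hj3 h')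
  have ne2 : ρ (11, j) ≠ ρ (12, j) := fun h' => (ca 11 12 rfl).ne
    (hinj _ _ (by norm_num) hj3 (by norm_num) hj3 h')
  have ne3 : ρ (11, j) ≠ ρ (10, j) := fun h' => (ca 11 10 rfl).ne
    (hinj _ _ (by norm_num) hj3 (by norm_num) hj3 h')
  have ne4 : ρ (9, j) ≠ ρ (12, j) := fun h' => (ca 9 12 rfl).ne
    (hinj _ _ (by norm_num) hj3 (by norm_num) hj3 h')
  by_cases hF : bet ρ (2, 0)
  · have f1 := b1.2 (d1.2 hF)
    have f2 := b2.2 (d2.2 hF)
    have f3 := b3.2 (d3.2 hF)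
    have f4 := b4.2 hF
    omega
  · have f1 : ¬ ρ Ha < ρ (9, j) := fun h' => hF (d1.1 (b1.1 h'))
    have f2 : ¬ ρ Hb < ρ (10, j) := fun h' => hF (d2.1 (b2.1 h'))
    have f3 : ¬ ρ Hc < ρ (11, j) := fun h' => hF (d3.1 (b3.1 h'))
    have f4 : ¬ ρ (2, 0) < ρ (12, j) := fun h' => hF (b4.1 h')
    omega

end

end Pool.Agent.Q329.CD
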